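import Pool.Agent.H92.PercER

set_option autoImplicit false
open Finset Filter Topology

namespace Pool.Agent.Results.MP_e3f396_pr.Subcritical

open Classical in
/-- probability that the largest component has at least `t` vertices, when each pair `e` of
distinct vertices is an edge with probability `q e`, independently -/
noncomputable def prob {V : Type} [Fintype V] [DecidableEq V] (q : Sym2 V → ℝ) (t : ℝ) : ℝ :=
  ∑ ω ∈ (univ.filter fun e : Sym2 V => ¬ e.IsDiag).powerset,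
    (∏ e ∈ ω, q e) * (∏ e ∈ (univ.filter fun e : Sym2 V => ¬ e.IsDiag) \ ω, (1 - q e)) *
      if t ≤ (univ.sup fun v => (univ.filter fun u =>
        (SimpleGraph.fromEdgeSet (ω : Set (Sym2 V))).Reachable v u).card : ℕ) then 1 else 0

/-- the ball `Λ_n` -/
abbrev Lam (d L n : ℕ) := Fin n → Fin d → ZMod L

/-- the largest index (counted from `1`) with `x_i ≠ 0` -/
def lev {d L n : ℕ} (x : Lam d L n) : ℕ := (univ.filter fun i => x i ≠ 0).sup fun i => i.val + 1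

/-- `‖x‖` -/
def hnorm {d L n : ℕ} (x : Lam d L n) : ℝ := if x = 0 then 0 else (L : ℝ) ^ lev x

lemma hnorm_comm {d L n : ℕ} (x y : Lam d L n) : hnorm (x - y) = hnorm (y - x) := by
  rw [← neg_sub y x]
  simp only [hnorm, lev, neg_eq_zero, Pi.neg_apply, ne_eq]

/-- the edge probability `1 - exp (-max (J(x,y)/ζ + b) 0)` -/
noncomputable def edgeP (d L n : ℕ) (ρ : ℝ → ℝ) (ζ b : ℝ) : Sym2 (Lam d L n) → ℝ :=
  Sym2.lift ⟨fun x y => 1 - Real.exp (-max (ρ (hnorm (x - y)) / ζ + b) 0),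
    fun x y => by simp only [hnorm_comm x y]⟩

/-- `ζ` is a positive solution of the equation defining `ζ_n` -/
def IsZeta (d L n : ℕ) (ρ : ℝ → ℝ) (ζ : ℝ) : Prop :=
  0 < ζ ∧ ∑ i ∈ Icc 1 n, ((L : ℝ) ^ d - 1) * (L : ℝ) ^ ((i - 1) * d) *
    Real.exp (-ρ ((L : ℝ) ^ i) / ζ) = (L : ℝ) ^ (n * d) - 2

open Pool.Agent.H92.Perc

variable {d L n : ℕ}

lemma lev_le (x : Lam d L n) (i : ℕ) : lev x ≤ i ↔ ∀ j : Fin n, i ≤ j.val → x j = 0 := by
  simp only [lev, Finset.sup_le_iff, mem_filter, mem_univ, true_and]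
  exact ⟨fun h j hj => by_contra fun c => by have := h j c; omega,
    fun h j hj => by_contra fun c => hj (h j (by omega))⟩

lemma card_le_lev [NeZero L] {i : ℕ} (hi : i ≤ n) :
    (univ.filter fun x : Lam d L n => lev x ≤ i).card = L ^ (i * d) := by
  have : (univ.filter fun x : Lam d L n => lev x ≤ i) =
      Fintype.piFinset fun j : Fin n => if j.val < i then univ else {0} := by
    ext x
    simp only [mem_filter, mem_univ, true_and, lev_le, Fintype.mem_piFinset]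
    refine forall_congr' fun j => ?_
    by_cases h : j.val < i
    · simp [h]
    · simp [h, not_lt.1 h]
  rw [this, Fintype.card_piFinset]
  simp only [apply_ite card, card_singleton, card_univ, Fintype.card_fun, ZMod.card,
    Fintype.card_fin]
  rw [prod_ite, prod_const_one, mul_one, prod_const, Fin.card_filter_val_lt, min_eq_right hi,
    ← pow_mul, mul_comm]

lemma sum_lev [NeZero L] (g : ℝ → ℝ) (x : Lam d L n) :
    ∑ y ∈ univ.erase x, g (hnorm (x - y)) =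
      ∑ i ∈ Icc 1 n, ((L : ℝ) ^ d - 1) * (L : ℝ) ^ ((i - 1) * d) * g ((L : ℝ) ^ i) := by
  have h0 : ∀ z : Lam d L n, lev z ≤ 0 ↔ z = 0 := fun z => by
    rw [lev_le]
    exact ⟨fun h => funext fun j => h j (Nat.zero_le _), fun h j _ => by simp [h]⟩
  have h1 : ∑ y ∈ univ.erase x, g (hnorm (x - y)) =
      ∑ z ∈ univ.erase (0 : Lam d L n), g (hnorm z) :=
    sum_equiv (Equiv.subLeft x) (fun y => by simp [sub_eq_zero, eq_comm]) fun _ _ => rfl
  rw [h1, ← sum_fiberwise_of_maps_to (g := lev) (t := Icc 1 n) fun z hz => mem_Icc.2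
    ⟨by_contra fun c => ne_of_mem_erase hz ((h0 z).1 (by omega)),
      (lev_le z n).2 fun j hj => absurd j.2 (by omega)⟩]
  refine sum_congr rfl fun i hi => ?_
  obtain ⟨i1, i2⟩ := mem_Icc.1 hi
  rw [sum_congr rfl fun z hz => by
    rw [hnorm, if_neg (ne_of_mem_erase (mem_filter.1 hz).1), (mem_filter.1 hz).2],
    sum_const, nsmul_eq_mul]
  congr 1
  have h2 : ((univ.erase (0 : Lam d L n)).filter fun z => lev z = i) =
      (univ.filter fun z => lev z ≤ i) \ (univ.filter fun z => lev z ≤ i - 1) := by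
    ext z
    simp only [mem_filter, mem_erase, mem_univ, and_true, true_and, Finset.mem_sdiff, ne_eq]
    rw [← h0 z]
    omega
  have h3 : (univ.filter fun z : Lam d L n => lev z ≤ i - 1) ⊆ univ.filter fun z => lev z ≤ i :=
    fun z hz => mem_filter.2 ⟨mem_univ _, (mem_filter.1 hz).2.trans (Nat.sub_le _ _)⟩
  rw [h2, card_sdiff_of_subset h3, card_le_lev i2, card_le_lev (by omega),
    Nat.cast_sub (Nat.pow_le_pow_right (NeZero.pos L) (Nat.mul_le_mul_right _ (by omega)))]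
  obtain ⟨j, rfl⟩ := Nat.exists_eq_add_of_le' i1
  push_cast
  ring

lemma sum_c (L : ℝ) (d n : ℕ) :
    ∑ i ∈ Icc 1 n, (L ^ d - 1) * L ^ ((i - 1) * d) = L ^ (n * d) - 1 := by
  induction n with
  | zero => simp
  | succ n ih =>
    rw [sum_Icc_succ_top (by omega), ih, Nat.add_sub_cancel]
    ring

lemma exists_zeta (hd : 1 ≤ d) (hL : 2 ≤ L) (hn : 2 ≤ n) {ρ : ℝ → ℝ}
    (hρ : ∀ r ≥ 1, 0 < ρ r) : ∃ ζ, IsZeta d L n ρ ζ := by
  have hL' : (2 : ℝ) ≤ L := by exact_mod_cast hL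
  set F : ℝ → ℝ := fun u => ∑ i ∈ Icc 1 n, ((L : ℝ) ^ d - 1) * (L : ℝ) ^ ((i - 1) * d) *
    Real.exp (-(ρ ((L : ℝ) ^ i) * u)) with hF
  have h1 : Tendsto F atTop (𝓝 0) := by
    have := tendsto_finsetSum (Icc 1 n) fun i _ =>
      (Real.tendsto_exp_neg_atTop_nhds_zero.comp (tendsto_id.const_mul_atTop
        (hρ ((L : ℝ) ^ i) (one_le_pow₀ (by linarith))))).const_mul
          (((L : ℝ) ^ d - 1) * (L : ℝ) ^ ((i - 1) * d))
    simpa using this
  have h2 : (2 : ℝ) ^ 2 ≤ (L : ℝ) ^ (n * d) :=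
    (pow_le_pow_left₀ (by norm_num) hL' 2).trans (pow_le_pow_right₀ (by linarith) (by nlinarith))
  obtain ⟨u, hu, hu'⟩ := ((h1.eventually (gt_mem_nhds (show (0 : ℝ) < 1 by norm_num))).and
    (eventually_ge_atTop 0)).exists
  have h3 : F 0 = (L : ℝ) ^ (n * d) - 1 := by simp [hF, sum_c]
  obtain ⟨v, hv, hv'⟩ := intermediate_value_Icc' hu' (f := F) (by fun_prop)
    (show (L : ℝ) ^ (n * d) - 2 ∈ Set.Icc (F u) (F 0) from ⟨by linarith, by linarith⟩)
  have h4 : 0 < v := lt_of_le_of_ne hv.1 fun c => by rw [← c] at hv'; linarith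
  refine ⟨v⁻¹, inv_pos.2 h4, ?_⟩
  rw [← hv', hF]
  simp only [div_inv_eq_mul, neg_mul]

lemma bound [NeZero L] (hL : 2 ≤ L) (hd : 1 ≤ d) (hn : 1 ≤ n) {ρ : ℝ → ℝ} {ζ b u t : ℝ}
    (hρ : ∀ r ≥ 1, 0 < ρ r) (hζ : IsZeta d L n ρ ζ) (hu : 0 < u) (hu1 : u ≤ 1)
    (hu2 : u ≤ ρ L / ζ) (hb : (L : ℝ) ^ (n * d) * |b| ≤ u ^ 2 / 64) (ht : 0 < t) :
    prob (edgeP d L n ρ ζ b) t ≤ (L : ℝ) ^ (n * d) * (64 / u ^ 2) / t ^ 2 := by
  have hL' : (2 : ℝ) ≤ L := by exact_mod_cast hL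
  set g : ℝ → ℝ := fun r => 1 - Real.exp (-max (ρ r / ζ + b) 0) with hg
  have g0 : ∀ r, 0 ≤ g r := fun r =>
    sub_nonneg.2 (Real.exp_le_one_iff.2 (neg_nonpos.2 (le_max_right _ _)))
  have h0 : ∀ e, 0 ≤ edgeP d L n ρ ζ b e := fun e => Sym2.inductionOn e fun x y => g0 _
  have h1 : ∀ e, edgeP d L n ρ ζ b e ≤ 1 := fun e => Sym2.inductionOn e fun x y =>
    sub_le_self _ (Real.exp_pos _).le
  have c0 : ∀ i, 0 ≤ ((L : ℝ) ^ d - 1) * (L : ℝ) ^ ((i - 1) * d) := fun i =>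
    mul_nonneg (sub_nonneg.2 (one_le_pow₀ (by linarith))) (by positivity)
  have N1 : (1 : ℝ) ≤ (L : ℝ) ^ (n * d) := one_le_pow₀ (by linarith)
  have hm : ∀ x, ∑ y ∈ univ.erase x, edgeP d L n ρ ζ b s(x, y) ≤ 1 + u ^ 2 / 64 := by
    intro x
    refine (sum_lev g x).trans_le ?_
    have : ∀ i ∈ Icc 1 n, ((L : ℝ) ^ d - 1) * (L : ℝ) ^ ((i - 1) * d) * g ((L : ℝ) ^ i) ≤
        ((L : ℝ) ^ d - 1) * (L : ℝ) ^ ((i - 1) * d) * (1 + |b|) -
        ((L : ℝ) ^ d - 1) * (L : ℝ) ^ ((i - 1) * d) * Real.exp (-ρ ((L : ℝ) ^ i) / ζ) := by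
      intro i _
      rw [← mul_sub]
      refine mul_le_mul_of_nonneg_left ?_ (c0 i)
      have a0 : 0 ≤ ρ ((L : ℝ) ^ i) / ζ := (div_pos (hρ _ (one_le_pow₀ (by linarith))) hζ.1).le
      simp only [hg, neg_div]
      generalize ρ ((L : ℝ) ^ i) / ζ = a at *
      have a1 : Real.exp (-a) * Real.exp (-|b|) ≤ Real.exp (-max (a + b) 0) := by
        rw [← Real.exp_add, Real.exp_le_exp, ← neg_add, neg_le_neg_iff]
        exact max_le (by linarith [le_abs_self b]) (by positivity)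
      have a2 := Real.add_one_le_exp (-|b|)
      have a3 : Real.exp (-a) ≤ 1 := Real.exp_le_one_iff.2 (by linarith)
      nlinarith [Real.exp_pos (-a), abs_nonneg b]
    refine (sum_le_sum this).trans ?_
    rw [sum_sub_distrib, hζ.2, ← sum_mul, sum_c]
    nlinarith [abs_nonneg b]
  have hs : ∀ x, u ^ 2 / 16 ≤ ∑ y ∈ univ.erase x, edgeP d L n ρ ζ b s(x, y) ^ 2 := by
    intro x
    refine le_of_le_of_eq ?_ (sum_lev (fun r => g r ^ 2) x).symm
    refine le_trans ?_ (single_le_sum (f := fun i => ((L : ℝ) ^ d - 1) * (L : ℝ) ^ ((i - 1) * d) *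
      g ((L : ℝ) ^ i) ^ 2) (fun i _ => mul_nonneg (c0 i) (sq_nonneg _)) (left_mem_Icc.2 hn))
    have a1 : (2 : ℝ) ≤ (L : ℝ) ^ d := hL'.trans (le_self_pow₀ (by linarith) (by omega))
    have a2 : u / 4 ≤ g L := by
      have b1 : |b| ≤ u / 2 := by nlinarith [abs_nonneg b]
      have b2 : Real.exp (-max (ρ L / ζ + b) 0) ≤ Real.exp (-(u / 2)) :=
        Real.exp_le_exp.2 (neg_le_neg (le_max_of_le_left (by linarith [neg_abs_le b])))
      have b3 : Real.exp (-(u / 2)) * (u / 2 + 1) ≤ 1 := by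
        rw [Real.exp_neg, inv_mul_le_iff₀ (Real.exp_pos _), mul_one]
        exact Real.add_one_le_exp _
      simp only [hg]
      nlinarith [Real.exp_pos (-(u / 2))]
    simp only [Nat.sub_self, zero_mul, pow_zero, mul_one, pow_one]
    nlinarith
  have h := big_le h0 h1 (χ := 64 / u ^ 2) ht fun v => by
    have := chi h0 h1 hm hs v
    rw [le_div_iff₀ (by positivity)]
    linarith
  have hc : (Fintype.card (Lam d L n) : ℝ) = (L : ℝ) ^ (n * d) := by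
    simp [ZMod.card, ← pow_mul, mul_comm]
  rw [hc] at h
  exact h

theorem result :
    (∀ (d L : ℕ) [NeZero L], 1 ≤ d → 2 ≤ L → ∀ (α A₁ A₂ : ℝ) (ρ : ℝ → ℝ),
      5 * d / 6 < α → α ≤ d → 0 < A₁ → (∀ r ≥ 1, A₁ ≤ r ^ α * ρ r ∧ r ^ α * ρ r ≤ A₂) →
      (∀ n ≥ 2, ∃ z, IsZeta d L n ρ z) ∧
      ∀ ζ : ℕ → ℝ, (∀ n ≥ 2, IsZeta d L n ρ (ζ n)) → ∀ l ε : ℝ, 0 < ε →
        Tendsto (fun n : ℕ => prob (edgeP d L n ρ (ζ n) (l * (L : ℝ) ^ (-(4 * n * d : ℝ) / 3)))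
          (ε * (L : ℝ) ^ ((2 * n * d : ℝ) / 3))) atTop (𝓝 0)) ∧
    ∀ m : ℕ, 4 ≤ m → Real.exp (-10) / 16 ≤
      prob (V := Fin (m ^ 3)) (fun _ => ((m ^ 3 : ℕ) : ℝ)⁻¹) ((m : ℝ) ^ 2) := by
  refine ⟨fun d L _ hd hL α A₁ A₂ ρ hα hα' hA hρ => ?_, fun m hm => er m hm⟩
  have hL' : (2 : ℝ) ≤ L := by exact_mod_cast hL
  have L0 : (0 : ℝ) < L := by linarith
  have hd' : (1 : ℝ) ≤ d := by exact_mod_cast hd
  have ρ0 : ∀ r ≥ 1, 0 < ρ r := fun r hr =>
    (mul_pos_iff_of_pos_left (Real.rpow_pos_of_pos (by linarith) α)).1 (hA.trans_le (hρ r hr).1)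
  refine ⟨fun n hn => exists_zeta hd hL hn ρ0, fun ζ hζ l ε hε => ?_⟩
  have hA2 : A₁ ≤ A₂ := (hρ 1 le_rfl).1.trans (hρ 1 le_rfl).2
  have A0 : 0 < A₂ := by linarith
  set R : ℝ := (L : ℝ) ^ (d - α) with hR
  set Q : ℝ := (L : ℝ) ^ ((d : ℝ) / 3) with hQ
  set c : ℝ := A₁ / (L : ℝ) ^ α / A₂ with hc
  have R1 : 1 ≤ R := Real.one_le_rpow (by linarith) (by linarith)
  have Q0 : 0 < Q := by positivity
  have c0 : 0 < c := by positivity
  have c1 : c ≤ 1 := by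
    rw [hc, div_le_one A0, div_le_iff₀ (by positivity)]
    nlinarith [Real.one_le_rpow (show (1 : ℝ) ≤ L by linarith) (show 0 ≤ α by linarith)]
  have hRQ : R ^ 2 / Q < 1 := by
    rw [div_lt_one Q0, hR, hQ, ← Real.rpow_natCast, ← Real.rpow_mul L0.le]
    exact Real.rpow_lt_rpow_of_exponent_lt (by linarith) (by push_cast; linarith)
  have hw := tendsto_pow_const_mul_const_pow_of_abs_lt_one 2
    (show |R ^ 2 / Q| < 1 by rwa [abs_of_nonneg (by positivity)])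
  have hw1 := hw.const_mul (64 / (c ^ 2 * ε ^ 2))
  have hw2 := hw.const_mul |l|
  rw [mul_zero] at hw1 hw2
  refine squeeze_zero' (Eventually.of_forall fun n => ?_) ?_ hw1
  · refine sum_nonneg fun ω _ => mul_nonneg (mul_nonneg (prod_nonneg fun e _ => ?_)
      (prod_nonneg fun e _ => ?_)) (by split_ifs <;> norm_num)
    · exact Sym2.inductionOn e fun x y =>
        sub_nonneg.2 (Real.exp_le_one_iff.2 (neg_nonpos.2 (le_max_right _ _)))
    · exact Sym2.inductionOn e fun x y => sub_nonneg.2 (sub_le_self _ (Real.exp_pos _).le)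
  filter_upwards [eventually_ge_atTop 2, hw2.eventually (ge_mem_nhds
    (show 0 < c ^ 2 / 64 by positivity))] with n hn hl
  have n1 : (1 : ℝ) ≤ n := by exact_mod_cast (by omega : 1 ≤ n)
  have Rn : 1 ≤ R ^ n := one_le_pow₀ R1
  obtain ⟨z0, z1⟩ := hζ n hn
  have eQ : ∀ k : ℝ, (L : ℝ) ^ (k * n * d / 3) = (Q ^ n) ^ k := fun k => by
    rw [hQ, ← Real.rpow_natCast, ← Real.rpow_mul L0.le, ← Real.rpow_mul L0.le]
    congr 1
    ring
  have e1 : (L : ℝ) ^ (n * d) = (Q ^ n) ^ 3 := by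
    rw [← Real.rpow_natCast (Q ^ n), ← eQ, ← Real.rpow_natCast]
    congr 1
    push_cast
    ring
  have e2 : (L : ℝ) ^ ((2 * n * d : ℝ) / 3) = (Q ^ n) ^ 2 := by rw [eQ, Real.rpow_two]
  have e3 : (L : ℝ) ^ (-(4 * n * d : ℝ) / 3) = ((Q ^ n) ^ 4)⁻¹ := by
    rw [neg_div, Real.rpow_neg L0.le, eQ, ← Real.rpow_natCast (Q ^ n)]
    norm_num
  have hz : ζ n ≤ A₂ * (n * R ^ n) := by
    have : ∀ i ∈ Icc 1 n, ((L : ℝ) ^ d - 1) * (L : ℝ) ^ ((i - 1) * d) -
        ((L : ℝ) ^ d - 1) * (L : ℝ) ^ ((i - 1) * d) * Real.exp (-ρ ((L : ℝ) ^ i) / ζ n) ≤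
        A₂ * R ^ n / ζ n := by
      intro i hi
      obtain ⟨i1, i2⟩ := mem_Icc.1 hi
      have b0 : (1 : ℝ) ≤ (L : ℝ) ^ i := one_le_pow₀ (by linarith)
      have b1 : ((L : ℝ) ^ d - 1) * (L : ℝ) ^ ((i - 1) * d) ≤ R ^ i * ((L : ℝ) ^ i) ^ α := by
        rw [hR, ← Real.rpow_natCast ((L : ℝ) ^ (d - α)), ← Real.rpow_mul L0.le, mul_comm (d - α),
          Real.rpow_mul L0.le, Real.rpow_natCast, ← Real.rpow_add (by positivity), sub_add_cancel,
          Real.rpow_natCast]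
        obtain ⟨j, rfl⟩ := Nat.exists_eq_add_of_le' i1
        rw [Nat.add_sub_cancel, ← pow_mul, add_mul, one_mul, pow_add]
        nlinarith [pow_pos L0 (j * d)]
      have b2 := Real.add_one_le_exp (-ρ ((L : ℝ) ^ i) / ζ n)
      have b3 := div_pos (ρ0 _ b0) z0
      calc _ ≤ ((L : ℝ) ^ d - 1) * (L : ℝ) ^ ((i - 1) * d) * (ρ ((L : ℝ) ^ i) / ζ n) := by
            rw [← mul_one_sub]
            refine mul_le_mul_of_nonneg_left (by rw [neg_div] at b2 ⊢; linarith)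
              (mul_nonneg (sub_nonneg.2 (one_le_pow₀ (by linarith))) (by positivity))
        _ ≤ R ^ i * ((L : ℝ) ^ i) ^ α * (ρ ((L : ℝ) ^ i) / ζ n) := by gcongr
        _ = ((L : ℝ) ^ i) ^ α * ρ ((L : ℝ) ^ i) * R ^ i / ζ n := by ring
        _ ≤ _ := by
            gcongr
            exact (hρ _ b0).2
    have h := sum_le_card_nsmul _ _ _ this
    rw [sum_sub_distrib, z1, sum_c, Nat.card_Icc, Nat.add_sub_cancel, nsmul_eq_mul,
      ← mul_div_assoc, le_div_iff₀ z0] at h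
    linarith
  have h := bound (u := c / (n * R ^ n)) (b := l * (L : ℝ) ^ (-(4 * n * d : ℝ) / 3))
    (t := ε * (L : ℝ) ^ ((2 * n * d : ℝ) / 3)) hL hd (by omega) ρ0 (hζ n hn) (by positivity)
    (by rw [div_le_one (by positivity)]; nlinarith)
    (by
      rw [hc, div_div _ A₂]
      refine div_le_div₀ (ρ0 _ (by linarith)).le ?_ z0 hz
      rw [div_le_iff₀ (by positivity), mul_comm]
      exact (hρ _ (by linarith)).1)
    (by
      rw [e1, e3, abs_mul, abs_of_pos (a := ((Q ^ n) ^ 4)⁻¹) (by positivity)]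
      rw [div_pow, ← pow_mul, mul_comm 2 n, pow_mul] at hl
      have : (Q ^ n) ^ 3 * (|l| * ((Q ^ n) ^ 4)⁻¹) =
          |l| * (n ^ 2 * ((R ^ n) ^ 2 / Q ^ n)) / (n * R ^ n) ^ 2 := by field_simp
      rw [this, div_pow, div_right_comm]
      gcongr)
    (by positivity)
  refine h.trans (le_of_eq ?_)
  rw [e1, e2, div_pow (R ^ 2), ← pow_mul R, mul_comm 2 n, pow_mul R]
  field_simp

end Pool.Agent.Results.MP_e3f396_pr.Subcritical
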